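import Pool.Agent.Lib.MP_c80ac4_an.UN.Haar

/-! # Riesz products: the bound on one class of frequencies -/

namespace Forcing.UN

open Complex Metric Set MeasureTheory Filter Topology Forcing.RZ

variable {μ : Measure ℂ} [IsProbabilityMeasure μ]

omit [IsProbabilityMeasure μ] in
theorem rI_neg (hμ : ∀ᵐ z ∂μ, ‖z‖ = 1) {ε : ℕ → ℂ} (hε : ∀ n, ‖ε n‖ ≤ 1) (A : Finset ℕ) (m : ℤ) :
    rI μ ε A (-m) = (starRingEnd ℂ) (rI μ ε A m) := by
  unfold rI
  rw [← integral_conj]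
  refine integral_congr_ae ?_
  filter_upwards [hμ] with z hz
  obtain ⟨t, -, ht⟩ := rp_nonneg hε A hz
  have hz1 : (starRingEnd ℂ) z = z⁻¹ := by
    rw [Complex.inv_def, Complex.normSq_eq_norm_sq, hz]; simp
  rw [map_mul, map_zpow₀, hz1, ht, Complex.conj_ofReal, zpow_neg, inv_zpow]

/-- **One class of frequencies.** -/
theorem class_fin {Q α C c κ : ℝ} {N : ℕ} (h : Par Q α C c κ N) {q : ℝ} (hq : 1 < q)
    (hcq : 2 * c ≤ 1 - 1 / q) (hμ : ∀ᵐ z ∂μ, ‖z‖ = 1) (hd : Dec μ C α) {s : Finset ℕ}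
    (b : ℕ → ℂ) (hs : LacSet q N (s : Set ℕ)) (A : Finset ℕ) (hAs : A ⊆ s)
    (hA : ∀ m ∈ A, ∀ n ∈ A, m < n → Q * m ≤ n) {B : ℝ}
    (hB : ∀ ε : ℕ → ℂ, (∀ n, ‖ε n‖ ≤ 1) →
      ∫ z, ‖∑ n ∈ s, b n * z ^ n‖ * ‖rp ε A z‖ ∂μ ≤ B) :
    1 / 2 * ∑ n ∈ A, ‖b n‖ ≤ B + 5 * κ * ∑ n ∈ s, ‖b n‖ := by
  have hκ := h.κ0
  set ε : ℕ → ℂ := fun n => (starRingEnd ℂ) (b n) / ‖b n‖ with hεd
  have hε : ∀ n, ‖ε n‖ ≤ 1 := by
    intro n
    rw [hεd]
    simp only [norm_div, RCLike.norm_conj, Complex.norm_real, norm_norm]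
    exact div_self_le_one _
  have hbε : ∀ n, b n * (ε n / 2) = ((‖b n‖ / 2 : ℝ) : ℂ) := by
    intro n
    by_cases hn : b n = 0
    · simp [hn]
    have h0 : (‖b n‖ : ℂ) ≠ 0 := by exact_mod_cast (norm_ne_zero_iff.mpr hn)
    have h1 : b n * (starRingEnd ℂ) (b n) = (‖b n‖ : ℂ) ^ 2 := by
      rw [Complex.mul_conj, Complex.normSq_eq_norm_sq]; push_cast; rfl
    rw [hεd]
    push_cast
    have h2 : b n * ((starRingEnd ℂ) (b n) / (‖b n‖ : ℂ) / 2) =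
      (b n * (starRingEnd ℂ) (b n)) / (‖b n‖ : ℂ) / 2 := by ring
    show b n * ((starRingEnd ℂ) (b n) / (‖b n‖ : ℂ) / 2) = _
    rw [h2, h1]
    field_simp
  have hNs : ∀ m ∈ s, N ≤ m := fun m hm => (hs.1 m hm).2
  have h1 : ∫ z, (∑ n ∈ s, b n * z ^ n) * rp ε A z ∂μ = ∑ n ∈ s, b n * rI μ ε A n := by
    unfold rI
    simp_rw [Finset.sum_mul]
    rw [integral_finsetSum]
    · refine Finset.sum_congr rfl fun n _ => ?_
      rw [← integral_const_mul]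
      congr 1
      ext z
      rw [zpow_natCast]
      ring
    · intro n _
      have := (int_rp hμ hε A n).const_mul (b n)
      refine this.congr (Eventually.of_forall fun z => ?_)
      simp only [zpow_natCast]
      ring
  have h2 : ∑ n ∈ s, b n * (if n ∈ A then ε n / 2 else 0) =
      ((1 / 2 * ∑ n ∈ A, ‖b n‖ : ℝ) : ℂ) := by
    rw [← Finset.sum_subset hAs (fun n _ hn => by rw [if_neg hn, mul_zero]), Finset.mul_sum,
      Complex.ofReal_sum]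
    refine Finset.sum_congr rfl fun n hn => ?_
    rw [if_pos hn, hbε]
    congr 1
    ring
  have h3 : ‖∑ n ∈ s, b n * rI μ ε A n - ∑ n ∈ s, b n * (if n ∈ A then ε n / 2 else 0)‖ ≤
      5 * κ * ∑ n ∈ s, ‖b n‖ := by
    rw [← Finset.sum_sub_distrib, Finset.mul_sum]
    refine (norm_sum_le _ _).trans (Finset.sum_le_sum fun n hn => ?_)
    rw [← mul_sub, norm_mul, mul_comm]
    refine mul_le_mul_of_nonneg_right ?_ (norm_nonneg _)
    have h4 := rI_main hμ hd h hε (hNs n hn) A hA (fun m hm => hNs m (hAs hm))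
      (fun k hk hne => le_trans (mul_le_mul_of_nonneg_right hcq (Nat.cast_nonneg _))
        (sep hq (fun hlt => hs.2 n hn k (hAs hk) hlt) (fun hlt => hs.2 k (hAs hk) n hn hlt) hne))
    refine h4.trans ?_
    have h5 : (0 : ℝ) ≤ 2 / 2 ^ A.card := by positivity
    nlinarith
  have h4 : ‖∫ z, (∑ n ∈ s, b n * z ^ n) * rp ε A z ∂μ‖ ≤ B := by
    refine (norm_integral_le_integral_norm _).trans (le_trans (le_of_eq ?_) (hB ε hε))
    congr 1
    ext z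
    rw [norm_mul]
  have h5 : (0 : ℝ) ≤ 1 / 2 * ∑ n ∈ A, ‖b n‖ :=
    mul_nonneg (by norm_num) (Finset.sum_nonneg fun _ _ => norm_nonneg _)
  have h6 : 1 / 2 * ∑ n ∈ A, ‖b n‖ = ‖∑ n ∈ s, b n * (if n ∈ A then ε n / 2 else 0)‖ := by
    rw [h2, Complex.norm_real, Real.norm_of_nonneg h5]
  rw [h6]
  rw [h1] at h4
  set X := ∑ n ∈ s, b n * rI μ ε A n
  set Y := ∑ n ∈ s, b n * (if n ∈ A then ε n / 2 else 0)
  calc ‖Y‖ = ‖X - (X - Y)‖ := by congr 1; ring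
    _ ≤ ‖X‖ + ‖X - Y‖ := norm_sub_le _ _
    _ ≤ _ := add_le_add h4 h3

/-- For length the Riesz product has integral one. -/
theorem rI_haar_zero {Q c : ℝ} (h : Par Q 1 0 c 0 1) {ε : ℕ → ℂ} (hε : ∀ n, ‖ε n‖ ≤ 1)
    (A : Finset ℕ) (hA : ∀ m ∈ A, ∀ n ∈ A, m < n → Q * m ≤ n) (hN : ∀ m ∈ A, 1 ≤ m) :
    rI haar ε A 0 = 1 := by
  have h1 := rI_zero haar_norm (dec_haar 1) h hε A hA hN
  rw [zero_mul] at h1
  exact sub_eq_zero.1 (norm_le_zero_iff.1 h1)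

theorem int_rp_haar {Q c : ℝ} (h : Par Q 1 0 c 0 1) {ε : ℕ → ℂ} (hε : ∀ n, ‖ε n‖ ≤ 1)
    (A : Finset ℕ) (hA : ∀ m ∈ A, ∀ n ∈ A, m < n → Q * m ≤ n) (hN : ∀ m ∈ A, 1 ≤ m) :
    ∫ z, ‖rp ε A z‖ ∂haar = 1 := by
  rw [int_rp_norm haar_norm hε, rI_haar_zero h hε A hA hN, norm_one]

/-- The Riesz product has no Fourier coefficient away from its frequencies. -/
theorem rI_haar_far {Q c : ℝ} (h : Par Q 1 0 c 0 1) {ε : ℕ → ℂ} (hε : ∀ n, ‖ε n‖ ≤ 1)
    (A : Finset ℕ) (hA : ∀ m ∈ A, ∀ n ∈ A, m < n → Q * m ≤ n) (hN : ∀ m ∈ A, 1 ≤ m) {m : ℕ}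
    (hm : 1 ≤ m) (hmA : ∀ n ∈ A, 2 * c * n ≤ |(m : ℝ) - n|) : rI haar ε A m = 0 := by
  have h1 := rI_main haar_norm (dec_haar 1) h hε hm A hA hN (fun n hn _ => hmA n hn)
  have hmem : m ∉ A := by
    intro hmem
    have h2 := hmA m hmem
    rw [sub_self, abs_zero] at h2
    have h3 : (0 : ℝ) < m := by exact_mod_cast hm
    have := h.c0
    have h4 : 0 < 2 * c * m := by positivity
    linarith
  rw [zero_mul, if_neg hmem, sub_zero] at h1
  exact norm_le_zero_iff.1 h1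

/-- **Mean square of a polynomial against a Riesz product.** -/
theorem sq_haar {Q c : ℝ} (h : Par Q 1 0 c 0 1) {ε : ℕ → ℂ} (hε : ∀ n, ‖ε n‖ ≤ 1)
    (A : Finset ℕ) (hA : ∀ m ∈ A, ∀ n ∈ A, m < n → Q * m ≤ n) (hN : ∀ m ∈ A, 1 ≤ m)
    (F : Finset ℕ) (hF : ∀ a ∈ F, ∀ b ∈ F, b < a → ∀ n ∈ A,
      2 * c * n ≤ |((a - b : ℕ) : ℝ) - n|) :
    ∫ z, ‖∑ n ∈ F, z ^ n‖ ^ 2 * ‖rp ε A z‖ ∂haar = F.card := by
  have key : ∀ a ∈ F, ∀ b ∈ F, rI haar ε A ((a : ℤ) - b) = if a = b then 1 else 0 := by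
    intro a ha b hb
    rcases lt_trichotomy a b with hab | hab | hab
    · rw [if_neg hab.ne]
      have h1 := rI_haar_far h hε A hA hN (m := b - a) (by omega) (hF b hb a ha hab)
      have h2 : ((a : ℤ) - b) = -((b - a : ℕ) : ℤ) := by
        rw [Nat.cast_sub hab.le]
        ring
      rw [h2, rI_neg haar_norm hε, h1, map_zero]
    · rw [if_pos hab, hab, sub_self]
      exact rI_haar_zero h hε A hA hN
    · rw [if_neg hab.ne']
      have h1 := rI_haar_far h hε A hA hN (m := a - b) (by omega) (hF a ha b hb hab)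
      rw [← Nat.cast_sub hab.le]
      exact h1
  have h1 : ((∫ z, ‖∑ n ∈ F, z ^ n‖ ^ 2 * ‖rp ε A z‖ ∂haar : ℝ) : ℂ) =
      ∑ a ∈ F, ∑ b ∈ F, rI haar ε A ((a : ℤ) - b) := by
    rw [← integral_complex_ofReal]
    unfold rI
    have h2 : ∀ a ∈ F, ∑ b ∈ F, ∫ z, z ^ ((a : ℤ) - b) * rp ε A z ∂haar =
        ∫ z, ∑ b ∈ F, z ^ ((a : ℤ) - b) * rp ε A z ∂haar := fun a _ =>
      (integral_finsetSum _ fun b _ => int_rp haar_norm hε A _).symm
    rw [Finset.sum_congr rfl h2, ← integral_finsetSum]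
    · refine integral_congr_ae ?_
      filter_upwards [haar_norm] with z hz
      obtain ⟨t, ht0, ht⟩ := rp_nonneg hε A hz
      have hz0 : z ≠ 0 := by
        rintro rfl
        simp at hz
      have hz1 : (starRingEnd ℂ) z = z⁻¹ := by
        rw [Complex.inv_def, Complex.normSq_eq_norm_sq, hz]; simp
      have h3 : ((‖∑ n ∈ F, z ^ n‖ ^ 2 : ℝ) : ℂ) = ∑ a ∈ F, ∑ b ∈ F, z ^ ((a : ℤ) - b) := by
        rw [← Complex.normSq_eq_norm_sq, ← Complex.mul_conj, map_sum, Finset.sum_mul_sum]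
        refine Finset.sum_congr rfl fun a _ => Finset.sum_congr rfl fun b _ => ?_
        rw [map_pow, hz1, zpow_sub₀ hz0, zpow_natCast, zpow_natCast, inv_pow, div_eq_mul_inv]
      rw [Complex.ofReal_mul, h3, Finset.sum_mul]
      refine Finset.sum_congr rfl fun a _ => ?_
      rw [Finset.sum_mul]
      refine Finset.sum_congr rfl fun b _ => ?_
      rw [ht, Complex.norm_real, Real.norm_of_nonneg ht0]
    · intro a _
      exact integrable_finsetSum _ fun b _ => int_rp haar_norm hε A _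
  have h2 : ∑ a ∈ F, ∑ b ∈ F, rI haar ε A ((a : ℤ) - b) = ((F.card : ℝ) : ℂ) := by
    have h3 : ∀ a ∈ F, ∑ b ∈ F, rI haar ε A ((a : ℤ) - b) = 1 := by
      intro a ha
      rw [Finset.sum_congr rfl (key a ha), Finset.sum_ite_eq, if_pos ha]
    rw [Finset.sum_congr rfl h3]
    simp
  rw [h2] at h1
  exact_mod_cast h1

end Forcing.UN
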