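import Pool.Agent.Lib.MP_c80ac4_an.UN.Sets

/-! # The cut-off functions -/

namespace Forcing.UN

open Complex Metric Set MeasureTheory Filter Topology Forcing.RZ

/-- bounded and Lipschitz on the circle -/
def BL (g : ℂ → ℝ) : Prop := ∃ B Λ : ℝ, 0 ≤ B ∧ 0 ≤ Λ ∧ (∀ z : ℂ, ‖z‖ = 1 → |g z| ≤ B) ∧
  ∀ z w : ℂ, ‖z‖ = 1 → ‖w‖ = 1 → |g z - g w| ≤ Λ * ‖z - w‖

theorem BL.mul {g h : ℂ → ℝ} (hg : BL g) (hh : BL h) : BL fun z => g z * h z := by
  obtain ⟨B, Λ, hB0, hΛ0, hB, hΛ⟩ := hg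
  obtain ⟨B', Λ', hB0', hΛ0', hB', hΛ'⟩ := hh
  refine ⟨B * B', Λ * B' + B * Λ', by positivity, by positivity, fun z hz => ?_,
    fun z w hz hw => ?_⟩
  · simp only
    rw [abs_mul]
    exact mul_le_mul (hB z hz) (hB' z hz) (abs_nonneg _) hB0
  · simp only
    have h1 : g z * h z - g w * h w = (g z - g w) * h z + g w * (h z - h w) := by ring
    rw [h1]
    refine (abs_add_le _ _).trans ?_
    rw [abs_mul, abs_mul]
    have h2 : |g z - g w| * |h z| ≤ (Λ * ‖z - w‖) * B' :=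
      mul_le_mul (hΛ z w hz hw) (hB' z hz) (abs_nonneg _) (by positivity)
    have h3 : |g w| * |h z - h w| ≤ B * (Λ' * ‖z - w‖) :=
      mul_le_mul (hB w hw) (hΛ' z w hz hw) (abs_nonneg _) hB0
    linarith

theorem BL.one : BL fun _ => 1 := ⟨1, 0, by norm_num, le_rfl, by simp, by simp⟩

theorem BL.prod {g : ℕ → ℂ → ℝ} (J : ℕ) (hg : ∀ j, BL (g j)) :
    BL fun z => ∏ j ∈ Finset.range J, g j z := by
  induction J with
  | zero => simpa using BL.one
  | succ J ih =>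
    simp_rw [Finset.prod_range_succ]
    exact ih.mul (hg J)

theorem pow_lip (n : ℕ) {z w : ℂ} (hz : ‖z‖ = 1) (hw : ‖w‖ = 1) :
    ‖z ^ n - w ^ n‖ ≤ n * ‖z - w‖ := by
  induction n with
  | zero => simp
  | succ n ih =>
    have h1 : z ^ (n + 1) - w ^ (n + 1) = z * (z ^ n - w ^ n) + (z - w) * w ^ n := by ring
    rw [h1]
    refine (norm_add_le _ _).trans ?_
    rw [norm_mul, norm_mul, norm_pow, hz, hw, one_pow, mul_one, one_mul]
    push_cast
    linarith

theorem norm_P_le_one {K i j : ℕ} (hK : 0 < K) {z : ℂ} (hz : ‖z‖ = 1) : ‖P K i j z‖ ≤ 1 := by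
  unfold P
  have h0 : (0 : ℝ) < ((K * 8 ^ j : ℕ) : ℝ) := by positivity
  rw [norm_mul, norm_div, norm_one, Complex.norm_natCast, one_div, inv_mul_le_iff₀ h0, mul_one]
  refine (norm_sum_le _ _).trans ?_
  simp [hz, fr_card]

theorem BL.P {K : ℕ} (hK : 0 < K) (i j : ℕ) : BL fun z => ‖P K i j z‖ := by
  refine ⟨1, ‖(1 / ((K * 8 ^ j : ℕ) : ℂ))‖ * ∑ n ∈ fr i j (K * 8 ^ j), (n : ℝ), by norm_num,
    by positivity, fun z hz => ?_, fun z w hz hw => ?_⟩
  · rw [abs_of_nonneg (norm_nonneg _)]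
    exact norm_P_le_one hK hz
  · refine (abs_norm_sub_norm_le _ _).trans ?_
    unfold UN.P
    rw [← mul_sub, norm_mul, mul_assoc]
    refine mul_le_mul_of_nonneg_left ?_ (norm_nonneg _)
    rw [← Finset.sum_sub_distrib, Finset.sum_mul]
    exact (norm_sum_le _ _).trans (Finset.sum_le_sum fun n _ => pow_lip n hz hw)

theorem BL.cut {h : ℂ → ℝ} (hh : BL h) (a : ℝ) (ha : 0 ≤ a) :
    BL fun z => max 0 (1 - a * h z ^ 2) := by
  obtain ⟨B, Λ, hB0, hΛ0, hB, hΛ⟩ := hh.mul hh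
  refine ⟨1 + a * B, a * Λ, by positivity, by positivity, fun z hz => ?_, fun z w hz hw => ?_⟩
  · simp only
    rw [abs_of_nonneg (le_max_left _ _)]
    refine max_le (by positivity) ?_
    have h1 : 0 ≤ a * h z ^ 2 := by positivity
    have h2 : 0 ≤ a * B := by positivity
    linarith
  · simp only
    rw [max_comm 0 (1 - a * h z ^ 2), max_comm 0 (1 - a * h w ^ 2)]
    refine (abs_max_sub_max_le_abs _ _ _).trans ?_
    have h1 : 1 - a * h z ^ 2 - (1 - a * h w ^ 2) = -(a * (h z * h z - h w * h w)) := by ring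
    rw [h1, abs_neg, abs_mul, abs_of_nonneg ha, mul_assoc]
    exact mul_le_mul_of_nonneg_left (hΛ z w hz hw) ha

/-- the cut-off function -/
noncomputable def g (K i J : ℕ) (z : ℂ) : ℝ :=
  ∏ j ∈ Finset.range J, max 0 (1 - 4 ^ j * ‖P K i j z‖ ^ 2)

theorem g_nonneg (K i J : ℕ) (z : ℂ) : 0 ≤ g K i J z :=
  Finset.prod_nonneg fun _ _ => le_max_left _ _

theorem g_le_one (K i J : ℕ) (z : ℂ) : g K i J z ≤ 1 := by
  refine Finset.prod_le_one (fun _ _ => le_max_left _ _) fun j _ => ?_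
  refine max_le zero_le_one ?_
  have : (0 : ℝ) ≤ 4 ^ j * ‖P K i j z‖ ^ 2 := by positivity
  linarith

theorem continuous_g (K i J : ℕ) : Continuous (g K i J) := by
  unfold g
  have := fun j => continuous_P K i j
  fun_prop

theorem BL.g {K : ℕ} (hK : 0 < K) (i J : ℕ) : BL (g K i J) :=
  BL.prod J fun j => (BL.P hK i j).cut (4 ^ j) (by positivity)

theorem g_ge (K i J : ℕ) (z : ℂ) :
    1 - ∑ j ∈ Finset.range J, 4 ^ j * ‖P K i j z‖ ^ 2 ≤ g K i J z := by
  unfold g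
  induction J with
  | zero => simp
  | succ J ih =>
    have h1 := g_le_one K i J z
    have h0 := g_nonneg K i J z
    unfold g at h1 h0
    rw [Finset.prod_range_succ, Finset.sum_range_succ]
    set y := ∏ j ∈ Finset.range J, max 0 (1 - 4 ^ j * ‖P K i j z‖ ^ 2)
    set x := (4 : ℝ) ^ J * ‖P K i J z‖ ^ 2 with hx
    have hx0 : 0 ≤ x := by positivity
    have h2 : y * (1 - x) ≤ y * max 0 (1 - x) := mul_le_mul_of_nonneg_left (le_max_right _ _) h0
    nlinarith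

/-- the parameters for length -/
theorem exists_par {Q c : ℝ} (hQ : 4 ≤ Q) (hc0 : 0 < c) (hc1 : 2 * c ≤ 1 / 2)
    (hQc : 1 / (Q - 1) ≤ c) : Par Q 1 0 c 0 1 :=
  ⟨by linarith, by rw [Real.rpow_one]; exact hQ, one_pos, le_rfl, hc0, by linarith, hQc, le_rfl,
    by simp⟩

theorem geom_le (J T : ℕ) : ∑ j ∈ Finset.Ico J T, (1 / 2 : ℝ) ^ j ≤ 2 * (1 / 2) ^ J := by
  have h : ∀ T, ∑ j ∈ Finset.Ico J T, (1 / 2 : ℝ) ^ j ≤
      2 * (1 / 2) ^ J - (if J ≤ T then 2 * (1 / 2) ^ T else 0) := by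
    intro T
    induction T with
    | zero =>
      rcases Nat.eq_zero_or_pos J with h | h
      · simp [h]
      · rw [if_neg (by omega)]
        simp
    | succ T ih =>
      rcases lt_trichotomy J (T + 1) with h | h | h
      · rw [Finset.sum_Ico_succ_top (by omega), if_pos h.le]
        rw [if_pos (by omega)] at ih
        have : (1 / 2 : ℝ) ^ (T + 1) = (1 / 2) ^ T / 2 := by rw [pow_succ]; ring
        linarith
      · rw [h]
        simp
      · rw [Finset.Ico_eq_empty (by omega), if_neg (by omega)]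
        simp
  refine (h T).trans ?_
  split_ifs with h1
  · have : (0 : ℝ) ≤ 2 * (1 / 2) ^ T := by positivity
    linarith
  · linarith

theorem term_eq {K : ℕ} (hK : 0 < K) (j : ℕ) :
    (4 : ℝ) ^ j * (1 / (K * 8 ^ j)) = 1 / K * (1 / 2) ^ j := by
  have h8 : (8 : ℝ) ^ j = 4 ^ j * 2 ^ j := by
    rw [← mul_pow]
    norm_num
  have : (0 : ℝ) < K := by exact_mod_cast hK
  rw [h8, div_pow, one_pow]
  field_simp

theorem sq_P_haar {K : ℕ} (hK : 0 < K) (i j : ℕ) :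
    ∫ z, ‖P K i j z‖ ^ 2 ∂haar = 1 / (K * 8 ^ j) := by
  have h := sq_P (exists_par (Q := 5) (c := 1 / 4) (by norm_num) (by norm_num) (by norm_num)
    (by norm_num)) (by norm_num) (ε := fun _ => 0) (by simp) ∅ (by simp) (by simp) hK (i := i)
    (by simp) j
  simpa [rp] using h

theorem int_g {K : ℕ} (hK : 4 ≤ K) (i J : ℕ) : 1 / 2 ≤ ∫ z, g K i J z ∂haar := by
  have hK0 : 0 < K := by omega
  have h1 : ∫ z, (1 - ∑ j ∈ Finset.range J, 4 ^ j * ‖P K i j z‖ ^ 2) ∂haar ≤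
      ∫ z, g K i J z ∂haar := by
    refine integral_mono (int_cont haar_norm ?_) (int_cont haar_norm (continuous_g K i J))
      fun z => g_ge K i J z
    have := fun j => continuous_P K i j
    fun_prop
  refine le_trans ?_ h1
  have hint : ∀ j ∈ Finset.range J, Integrable (fun z => 4 ^ j * ‖P K i j z‖ ^ 2) haar := by
    intro j _
    refine int_cont haar_norm ?_
    have := continuous_P K i j
    fun_prop
  rw [integral_sub (integrable_const _) (integrable_finsetSum _ hint), integral_finsetSum _ hint]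
  simp_rw [integral_const_mul, sq_P_haar hK0, term_eq hK0]
  rw [← Finset.mul_sum, Finset.range_eq_Ico]
  have h2 := geom_le 0 J
  rw [pow_zero] at h2
  have h3 : (1 : ℝ) / K ≤ 1 / 4 := by
    apply one_div_le_one_div_of_le (by norm_num)
    exact_mod_cast hK
  have h4 : (0 : ℝ) ≤ 1 / K := by positivity
  have h5 : 1 / (K : ℝ) * ∑ j ∈ Finset.Ico 0 J, (1 / 2 : ℝ) ^ j ≤ 1 / 4 * 2 := by
    refine mul_le_mul h3 (by linarith) (Finset.sum_nonneg fun _ _ => by positivity) (by norm_num)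
  have h6 : ∫ _z : ℂ, (1 : ℝ) ∂haar = 1 := by simp
  rw [h6]
  linarith

/-- **A bound on a closed set passes to finitely many of its conditions.** -/
theorem exists_T {K i : ℕ} {f : ℂ → ℂ} (hf : Continuous f) {M η : ℝ} (hη : 0 < η)
    (hM : ∀ z ∈ E K i, ‖f z‖ ≤ M) :
    ∃ T : ℕ, ∀ z : ℂ, ‖z‖ = 1 → (∀ j < T, ‖P K i j z‖ ≤ (1 / 2 : ℝ) ^ j) → ‖f z‖ ≤ M + η := by
  by_contra hcon
  push Not at hcon
  choose z hz1 hz2 hz3 using hcon
  obtain ⟨a, ha, φ, hφ, hlim⟩ := (isCompact_sphere (0 : ℂ) 1).tendsto_subseq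
    (x := z) (fun n => by simpa using hz1 n)
  have h1 : a ∈ E K i := by
    rw [mem_E]
    refine ⟨by simpa using ha, fun j => ?_⟩
    have h2 : Tendsto (fun n => ‖P K i j ((z ∘ φ) n)‖) atTop (𝓝 ‖P K i j a‖) :=
      ((continuous_P K i j).norm.tendsto a).comp hlim
    refine le_of_tendsto h2 ?_
    filter_upwards [eventually_gt_atTop j] with n hn
    exact hz2 _ j (lt_of_lt_of_le hn (hφ.id_le n))
  have h2 : Tendsto (fun n => ‖f ((z ∘ φ) n)‖) atTop (𝓝 ‖f a‖) :=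
    (hf.norm.tendsto a).comp hlim
  have h3 : M + η ≤ ‖f a‖ := ge_of_tendsto' h2 fun n => (hz3 _).le
  have h4 := hM a h1
  linarith

end Forcing.UN
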