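import Pool.Agent.Lib.MP_c80ac4_an.RieszC

/-! # The normalised length on the circle and densities with Lipschitz bounds -/

namespace Forcing.UN

open Complex Metric Set MeasureTheory Filter Topology
open scoped Real

/-- the parametrisation of the circle -/
noncomputable def ex (t : ℝ) : ℂ := Complex.exp (t * Complex.I)

theorem norm_ex (t : ℝ) : ‖ex t‖ = 1 := Complex.norm_exp_ofReal_mul_I t

theorem continuous_ex : Continuous ex := by
  unfold ex
  fun_prop

theorem ex_add (s t : ℝ) : ex (s + t) = ex s * ex t := by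
  unfold ex
  rw [← Complex.exp_add]
  congr 1
  push_cast
  ring

theorem ex_period (t : ℝ) : ex (t + 2 * π) = ex t := by
  rw [ex_add]
  have : ex (2 * π) = 1 := by
    unfold ex
    push_cast
    exact Complex.exp_two_pi_mul_I
  rw [this, mul_one]

theorem norm_ex_sub_one_le (t : ℝ) : ‖ex t - 1‖ ≤ |t| := by
  have h := Real.norm_exp_I_mul_ofReal_sub_one_le (x := t)
  unfold ex
  rw [mul_comm]
  simpa using h

/-- normalised length on the interval -/
noncomputable def nu : Measure ℝ :=
  (ENNReal.ofReal (1 / (2 * π))) • (volume.restrict (Ioc 0 (2 * π)))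

instance : IsProbabilityMeasure nu := by
  constructor
  unfold nu
  rw [Measure.smul_apply, Measure.restrict_apply MeasurableSet.univ, univ_inter, Real.volume_Ioc,
    smul_eq_mul, ← ENNReal.ofReal_mul (by positivity), sub_zero, one_div,
    inv_mul_cancel₀ (by positivity), ENNReal.ofReal_one]

/-- normalised length on the circle -/
noncomputable def haar : Measure ℂ := nu.map ex

instance : IsProbabilityMeasure haar :=
  Measure.isProbabilityMeasure_map continuous_ex.aemeasurable

theorem haar_norm : ∀ᵐ z ∂haar, ‖z‖ = 1 := by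
  unfold haar
  rw [ae_map_iff continuous_ex.aemeasurable (measurableSet_eq_fun (by fun_prop) (by fun_prop))]
  exact Eventually.of_forall norm_ex

theorem integral_haar {f : ℂ → ℂ} (hf : Measurable f) :
    ∫ z, f z ∂haar = (1 / (2 * π) : ℝ) • ∫ t in (0 : ℝ)..(2 * π), f (ex t) := by
  unfold haar
  rw [integral_map continuous_ex.aemeasurable hf.aestronglyMeasurable]
  unfold nu
  rw [integral_smul_measure, ENNReal.toReal_ofReal (by positivity),
    intervalIntegral.integral_of_le (by positivity)]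

/-- **Lipschitz densities have decaying Fourier coefficients.** -/
theorem haar_decay {g : ℂ → ℂ} (hg : Continuous g) {Λ : ℝ}
    (hΛ : ∀ z w : ℂ, ‖z‖ = 1 → ‖w‖ = 1 → ‖g z - g w‖ ≤ Λ * ‖z - w‖) {n : ℕ} (hn : 1 ≤ n) :
    ‖∫ z, g z * z ^ n ∂haar‖ ≤ (π * Λ / 2) * (n : ℝ)⁻¹ := by
  have hn0 : (0 : ℝ) < n := by exact_mod_cast hn
  have hpi := Real.pi_pos
  have hΛ0 : 0 ≤ Λ := by
    have h1 := (norm_nonneg _).trans (hΛ 1 (-1) (by simp) (by simp))
    have h2 : ‖(1 : ℂ) - (-1)‖ = 2 := by norm_num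
    rw [h2] at h1
    linarith
  rw [integral_haar (by fun_prop)]
  set F : ℝ → ℂ := fun t => g (ex t) * ex t ^ n with hF
  have hFc : Continuous F := by
    have := continuous_ex
    simp only [hF]
    fun_prop
  have hper : Function.Periodic F (2 * π) := by
    intro t
    simp only [hF]
    rw [ex_period]
  have hex : ex (π / n) ^ n = -1 := by
    unfold ex
    rw [← Complex.exp_nat_mul]
    have : (n : ℂ) * (((π / n : ℝ) : ℂ) * I) = π * I := by
      have : (n : ℂ) ≠ 0 := by exact_mod_cast hn0.ne'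
      push_cast
      field_simp
    rw [this, Complex.exp_pi_mul_I]
  have h1 : ∫ t in (0 : ℝ)..(2 * π), F (t + π / n) = ∫ t in (0 : ℝ)..(2 * π), F t := by
    rw [intervalIntegral.integral_comp_add_right]
    have h2 := hper.intervalIntegral_add_eq (0 + π / n) 0
    rw [zero_add (2 * π)] at h2
    rw [← h2]
    congr 1
    ring
  have h2 : ∀ t, F (t + π / n) = -(g (ex (t + π / n)) * ex t ^ n) := by
    intro t
    simp only [hF]
    rw [ex_add, mul_pow, hex]
    ring
  have h3 : (2 : ℂ) * ∫ t in (0 : ℝ)..(2 * π), F t =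
      ∫ t in (0 : ℝ)..(2 * π), (g (ex t) - g (ex (t + π / n))) * ex t ^ n := by
    have hi1 : IntervalIntegrable F volume 0 (2 * π) := hFc.intervalIntegrable _ _
    have hi2 : IntervalIntegrable (fun t => F (t + π / n)) volume 0 (2 * π) :=
      (hFc.comp (continuous_id.add continuous_const)).intervalIntegrable _ _
    calc (2 : ℂ) * ∫ t in (0 : ℝ)..(2 * π), F t =
        (∫ t in (0 : ℝ)..(2 * π), F t) + ∫ t in (0 : ℝ)..(2 * π), F (t + π / n) := by
          rw [h1]; ring
      _ = ∫ t in (0 : ℝ)..(2 * π), (F t + F (t + π / n)) :=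
          (intervalIntegral.integral_add hi1 hi2).symm
      _ = _ := by
          refine intervalIntegral.integral_congr fun t _ => ?_
          simp only [h2]
          simp only [hF]
          ring
  have h4 : ‖∫ t in (0 : ℝ)..(2 * π), (g (ex t) - g (ex (t + π / n))) * ex t ^ n‖ ≤
      (Λ * (π / n)) * |2 * π - 0| := by
    refine intervalIntegral.norm_integral_le_of_norm_le_const fun t _ => ?_
    rw [norm_mul, norm_pow, norm_ex, one_pow, mul_one]
    refine (hΛ _ _ (norm_ex _) (norm_ex _)).trans ?_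
    refine mul_le_mul_of_nonneg_left ?_ hΛ0
    have h5 : ex t - ex (t + π / n) = -(ex t * (ex (π / n) - 1)) := by
      rw [ex_add]
      ring
    rw [h5, norm_neg, norm_mul, norm_ex, one_mul]
    refine (norm_ex_sub_one_le _).trans (le_of_eq ?_)
    rw [abs_of_pos (by positivity)]
  rw [← h3, norm_mul, Complex.norm_ofNat, sub_zero, abs_of_pos (by positivity)] at h4
  rw [norm_smul, Real.norm_of_nonneg (by positivity)]
  have h6 : ‖∫ t in (0 : ℝ)..(2 * π), F t‖ ≤ π * (Λ * (π / n)) := by linarith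
  calc 1 / (2 * π) * ‖∫ t in (0 : ℝ)..(2 * π), F t‖ ≤ 1 / (2 * π) * (π * (Λ * (π / n))) := by
        gcongr
    _ = (π * Λ / 2) * (n : ℝ)⁻¹ := by
        field_simp

theorem haar_zero {n : ℕ} (hn : 1 ≤ n) : ∫ z, z ^ n ∂haar = 0 := by
  have h := haar_decay (g := fun _ => (1 : ℂ)) continuous_const (Λ := 0) (by simp) hn
  simpa using h

theorem dec_haar (α : ℝ) : Forcing.RZ.Dec haar 0 α := by
  intro n hn
  rw [haar_zero hn]
  simp

/-- integrability of measurable functions that are bounded on the circle -/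
theorem int_bdd {μ : Measure ℂ} [IsProbabilityMeasure μ] (hμ : ∀ᵐ z ∂μ, ‖z‖ = 1)
    {E : Type*} [NormedAddCommGroup E] {f : ℂ → E} (hf : AEStronglyMeasurable f μ) {B : ℝ}
    (hB : ∀ z : ℂ, ‖z‖ = 1 → ‖f z‖ ≤ B) : Integrable f μ := by
  refine Integrable.of_bound hf B ?_
  filter_upwards [hμ] with z hz
  exact hB z hz

/-- continuous functions are integrable -/
theorem int_cont {μ : Measure ℂ} [IsProbabilityMeasure μ] (hμ : ∀ᵐ z ∂μ, ‖z‖ = 1)
    {E : Type*} [NormedAddCommGroup E] {f : ℂ → E} (hf : Continuous f) : Integrable f μ := by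
  obtain ⟨B, hB⟩ := (isCompact_sphere (0 : ℂ) 1).exists_bound_of_continuousOn hf.continuousOn
  have : SecondCountableTopologyEither ℂ E := inferInstance
  exact int_bdd hμ hf.aestronglyMeasurable fun z hz => hB z (by simpa using hz)

/-- the measure with a density -/
noncomputable def dens (g : ℂ → ℝ) : Measure ℂ :=
  haar.withDensity fun z => ENNReal.ofReal (g z / ∫ w, g w ∂haar)

theorem dens_norm (g : ℂ → ℝ) : ∀ᵐ z ∂(dens g), ‖z‖ = 1 :=
  (withDensity_absolutelyContinuous _ _).ae_le haar_norm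

section
variable {g : ℂ → ℝ} (hg : Continuous g) (hg0 : ∀ z, 0 ≤ g z) (hG : 0 < ∫ w, g w ∂haar)
include hg hg0 hG

theorem dens_prob : IsProbabilityMeasure (dens g) := by
  constructor
  unfold dens
  rw [withDensity_apply _ MeasurableSet.univ, Measure.restrict_univ,
    ← ofReal_integral_eq_lintegral_ofReal]
  · rw [integral_div, div_self hG.ne', ENNReal.ofReal_one]
  · exact (int_cont haar_norm hg).div_const _
  · exact Eventually.of_forall fun z => div_nonneg (hg0 z) hG.le

theorem integral_dens {E : Type*} [NormedAddCommGroup E] [NormedSpace ℝ E] (f : ℂ → E) :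
    ∫ z, f z ∂(dens g) = ∫ z, (g z / ∫ w, g w ∂haar) • f z ∂haar := by
  unfold dens
  rw [integral_withDensity_eq_integral_toReal_smul]
  · refine integral_congr_ae (Eventually.of_forall fun z => ?_)
    simp only
    rw [ENNReal.toReal_ofReal (div_nonneg (hg0 z) hG.le)]
  · exact (hg.measurable.div_const _).ennreal_ofReal
  · exact Eventually.of_forall fun z => ENNReal.ofReal_lt_top

theorem dec_dens {Λ : ℝ}
    (hΛ : ∀ z w : ℂ, ‖z‖ = 1 → ‖w‖ = 1 → |g z - g w| ≤ Λ * ‖z - w‖) :
    Forcing.RZ.Dec (dens g) (π * Λ / 2 / ∫ w, g w ∂haar) 1 := by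
  intro n hn
  rw [integral_dens hg hg0 hG]
  have h1 : ∫ z, (g z / ∫ w, g w ∂haar) • z ^ n ∂haar =
      (((∫ w, g w ∂haar)⁻¹ : ℝ) : ℂ) * ∫ z, (g z : ℂ) * z ^ n ∂haar := by
    rw [← integral_const_mul]
    refine integral_congr_ae (Eventually.of_forall fun z => ?_)
    simp only [Complex.real_smul]
    push_cast
    ring
  rw [h1, norm_mul, Complex.norm_real, Real.norm_of_nonneg (by positivity), Real.rpow_neg_one]
  have h2 := haar_decay (g := fun z => (g z : ℂ)) (by fun_prop) (Λ := Λ) (fun z w hz hw => by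
    rw [← Complex.ofReal_sub, Complex.norm_real]
    exact hΛ z w hz hw) hn
  calc (∫ w, g w ∂haar)⁻¹ * ‖∫ z, (g z : ℂ) * z ^ n ∂haar‖ ≤
      (∫ w, g w ∂haar)⁻¹ * ((π * Λ / 2) * (n : ℝ)⁻¹) := by gcongr
    _ = π * Λ / 2 / (∫ w, g w ∂haar) * (n : ℝ)⁻¹ := by ring

end

end Forcing.UN
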