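import Pool.Agent.Lib.MP_c80ac4_an.UN.Cutoff

/-! # The union of two sets that are not Sidon can be Sidon -/

namespace Forcing.UN

open Complex Metric Set MeasureTheory Filter Topology Forcing.RZ

theorem int_mul_rp {ψ : ℂ → ℝ} (hψ : Continuous ψ) {ε : ℕ → ℂ} (hε : ∀ n, ‖ε n‖ ≤ 1)
    (A : Finset ℕ) : Integrable (fun z => ψ z * ‖rp ε A z‖) haar := by
  obtain ⟨B, hB⟩ := (isCompact_sphere (0 : ℂ) 1).exists_bound_of_continuousOn hψ.continuousOn
  refine int_bdd haar_norm (hψ.measurable.mul (meas_rp ε A).norm).aestronglyMeasurable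
    (B := B * 2 ^ A.card) fun z hz => ?_
  have hB0 := (norm_nonneg _).trans (hB z (by simpa using hz))
  rw [norm_mul, norm_norm]
  exact mul_le_mul (hB z (by simpa using hz)) (norm_rp_le hε A hz) (norm_nonneg _) hB0

/-- the pointwise bound -/
theorem pointwise {K i J T : ℕ} {f : ℂ → ℂ} {M S : ℝ} (hM0 : 0 ≤ M) (hS0 : 0 ≤ S)
    (hT : ∀ z : ℂ, ‖z‖ = 1 → (∀ j < T, ‖P K i j z‖ ≤ (1 / 2 : ℝ) ^ j) → ‖f z‖ ≤ M) {z : ℂ}
    (hz : ‖z‖ = 1) (hfS : ‖f z‖ ≤ S) :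
    g K i J z * ‖f z‖ ≤ M + S * ∑ j ∈ Finset.Ico J T, 4 ^ j * ‖P K i j z‖ ^ 2 := by
  have hsum0 : 0 ≤ ∑ j ∈ Finset.Ico J T, (4 : ℝ) ^ j * ‖P K i j z‖ ^ 2 :=
    Finset.sum_nonneg fun _ _ => by positivity
  have hg0 := g_nonneg K i J z
  have hg1 := g_le_one K i J z
  rcases eq_or_lt_of_le hg0 with h0 | h0
  · rw [← h0, zero_mul]
    positivity
  have hmain : g K i J z * ‖f z‖ ≤ ‖f z‖ := mul_le_of_le_one_left (norm_nonneg _) hg1
  have hsmall : ∀ j < J, ‖P K i j z‖ ≤ (1 / 2 : ℝ) ^ j := by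
    intro j hj
    by_contra hcon
    push Not at hcon
    have h1 : (1 : ℝ) < 4 ^ j * ‖P K i j z‖ ^ 2 := by
      have h2 : ((1 / 2 : ℝ) ^ j) ^ 2 < ‖P K i j z‖ ^ 2 := by gcongr
      have h3 : (4 : ℝ) ^ j * ((1 / 2 : ℝ) ^ j) ^ 2 = 1 := by
        rw [← pow_mul, mul_comm j 2, pow_mul, ← mul_pow]
        norm_num
      have h4 : (4 : ℝ) ^ j * ((1 / 2 : ℝ) ^ j) ^ 2 < 4 ^ j * ‖P K i j z‖ ^ 2 := by gcongr
      linarith
    have h5 : g K i J z = 0 := by
      unfold g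
      refine Finset.prod_eq_zero (Finset.mem_range.2 hj) (max_eq_left ?_)
      linarith
    rw [h5] at h0
    exact lt_irrefl _ h0
  by_cases hall : ∀ j < T, ‖P K i j z‖ ≤ (1 / 2 : ℝ) ^ j
  · have h1 := hT z hz hall
    have h2 := mul_nonneg hS0 hsum0
    linarith
  · push Not at hall
    obtain ⟨j, hjT, hj⟩ := hall
    have hjJ : J ≤ j := by
      by_contra hcon
      exact absurd (hsmall j (not_le.1 hcon)) (not_le.2 hj)
    have h1 : (1 : ℝ) ≤ 4 ^ j * ‖P K i j z‖ ^ 2 := by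
      have h2 : ((1 / 2 : ℝ) ^ j) ^ 2 ≤ ‖P K i j z‖ ^ 2 := by gcongr
      have h3 : (4 : ℝ) ^ j * ((1 / 2 : ℝ) ^ j) ^ 2 = 1 := by
        rw [← pow_mul, mul_comm j 2, pow_mul, ← mul_pow]
        norm_num
      have h4 : (4 : ℝ) ^ j * ((1 / 2 : ℝ) ^ j) ^ 2 ≤ 4 ^ j * ‖P K i j z‖ ^ 2 := by gcongr
      linarith
    have h2 : (1 : ℝ) ≤ ∑ j ∈ Finset.Ico J T, 4 ^ j * ‖P K i j z‖ ^ 2 :=
      h1.trans (Finset.single_le_sum (f := fun j => (4 : ℝ) ^ j * ‖P K i j z‖ ^ 2)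
        (fun _ _ => by positivity) (Finset.mem_Ico.2 ⟨hjJ, hjT⟩))
    have h3 := mul_le_mul_of_nonneg_left h2 hS0
    linarith

/-- **One class of frequencies, for one of the sets.** -/
theorem class_main {K i : ℕ} (hK : 4 ≤ K) {q Q c : ℝ} (hq : 1 < q) (hQ : 4 ≤ Q) (hc0 : 0 < c)
    (hc1 : 2 * c ≤ 1 / 2) (hcq : 2 * c ≤ 1 - 1 / q) (hQc : 1 / (Q - 1) ≤ c) (J : ℕ) {κ : ℝ}
    (hκ : 0 < κ) :
    ∃ N : ℕ, 1 ≤ N ∧ ∀ (s : Finset ℕ) (b : ℕ → ℂ) (M : ℝ), LacSet q N (s : Set ℕ) → 0 ≤ M →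
      (∀ z ∈ E K i, ‖∑ n ∈ s, b n * z ^ n‖ ≤ M) → ∀ A ⊆ s,
      (∀ m ∈ A, ∀ n ∈ A, m < n → Q * m ≤ n) → (∀ n ∈ A, ¬ Near i n) →
      1 / 2 * ∑ n ∈ A, ‖b n‖ ≤ 2 * M + (4 * (1 / 2) ^ J + 5 * κ) * ∑ n ∈ s, ‖b n‖ := by
  have hK0 : 0 < K := by omega
  have hG2 := int_g hK i J
  have hG : 0 < ∫ z, g K i J z ∂haar := by linarith
  obtain ⟨B, Λ, -, hΛ0, -, hΛ⟩ := BL.g hK0 i J
  have hdec := dec_dens (continuous_g K i J) (g_nonneg K i J) hG hΛ
  set C : ℝ := Real.pi * Λ / 2 / ∫ z, g K i J z ∂haar with hCd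
  have hC0 : 0 ≤ C := by
    have := Real.pi_pos
    positivity
  have hprob := dens_prob (continuous_g K i J) (g_nonneg K i J) hG
  obtain ⟨N₁, hN₁⟩ := exists_nat_ge (C / (c * κ))
  have hpar : Par Q 1 C c κ (N₁ + 1) := by
    refine ⟨by linarith, by rw [Real.rpow_one]; exact hQ, one_pos, hC0, hc0, by linarith, hQc,
      by omega, ?_⟩
    rw [Real.rpow_neg_one, ← div_eq_mul_inv, div_le_iff₀ (by positivity)]
    rw [div_le_iff₀ (by positivity)] at hN₁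
    push_cast
    nlinarith [mul_pos hc0 hκ]
  have hpar0 : Par Q 1 0 c 0 1 := exists_par hQ hc0 hc1 hQc
  refine ⟨N₁ + 1, by omega, fun s b M hs hM0 hM A hAs hA hnear => ?_⟩
  set S := ∑ n ∈ s, ‖b n‖ with hS
  have hS0 : 0 ≤ S := Finset.sum_nonneg fun _ _ => norm_nonneg _
  set f : ℂ → ℂ := fun z => ∑ n ∈ s, b n * z ^ n with hf
  have hfc : Continuous f := by
    simp only [hf]
    fun_prop
  have hfS : ∀ z : ℂ, ‖z‖ = 1 → ‖f z‖ ≤ S := by
    intro z hz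
    refine (norm_sum_le _ _).trans (le_of_eq ?_)
    refine Finset.sum_congr rfl fun n _ => ?_
    rw [norm_mul, norm_pow, hz, one_pow, mul_one]
  refine le_of_forall_pos_le_add fun δ hδ => ?_
  obtain ⟨T, hT⟩ := exists_T (K := K) (i := i) hfc (half_pos hδ) hM
  have hN : ∀ m ∈ A, 1 ≤ m := fun m hm => (hs.1 m (hAs hm)).1
  have key : ∀ ε : ℕ → ℂ, (∀ n, ‖ε n‖ ≤ 1) → ∫ z, ‖f z‖ * ‖rp ε A z‖ ∂(dens (g K i J)) ≤
      2 * M + δ + 4 * (1 / 2) ^ J * S := by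
    intro ε hε
    rw [integral_dens (continuous_g K i J) (g_nonneg K i J) hG]
    set G := ∫ z, g K i J z ∂haar with hGd
    have hint1 : Integrable (fun z => (g K i J z / G) • (‖f z‖ * ‖rp ε A z‖)) haar := by
      have h1 : Continuous fun z => (g K i J z / G) * ‖f z‖ := by
        have := continuous_g K i J
        fun_prop
      refine (int_mul_rp h1 hε A).congr (Eventually.of_forall fun z => ?_)
      simp only [smul_eq_mul]
      ring
    have hint2 : ∀ j ∈ Finset.Ico J T,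
        Integrable (fun z => (4 ^ j * ‖P K i j z‖ ^ 2) * ‖rp ε A z‖) haar := by
      intro j _
      refine int_mul_rp ?_ hε A
      have := continuous_P K i j
      fun_prop
    have hint3 : Integrable (fun z => ‖rp ε A z‖) haar := by
      have := int_mul_rp (ψ := fun _ => 1) continuous_const hε A
      simpa using this
    have hint4 : Integrable (fun z => ∑ j ∈ Finset.Ico J T,
        (4 ^ j * ‖P K i j z‖ ^ 2) * ‖rp ε A z‖) haar := integrable_finsetSum _ hint2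
    have h1 : ∫ z, (g K i J z / G) • (‖f z‖ * ‖rp ε A z‖) ∂haar ≤
        ∫ z, (2 * (M + δ / 2) * ‖rp ε A z‖ + 2 * S * ∑ j ∈ Finset.Ico J T,
          (4 ^ j * ‖P K i j z‖ ^ 2) * ‖rp ε A z‖) ∂haar := by
      refine integral_mono_ae hint1 ((hint3.const_mul _).add (hint4.const_mul _)) ?_
      filter_upwards [haar_norm] with z hz
      have h2 := pointwise (J := J) (by positivity : 0 ≤ M + δ / 2) hS0 hT hz (hfS z hz)
      have h3 : (g K i J z / G) ≤ 2 * g K i J z := by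
        rw [div_le_iff₀ hG]
        nlinarith [g_nonneg K i J z]
      have h4 : (g K i J z / G) * ‖f z‖ ≤ 2 * (g K i J z * ‖f z‖) := by
        nlinarith [norm_nonneg (f z)]
      have h5 : 0 ≤ ‖rp ε A z‖ := norm_nonneg _
      simp only [smul_eq_mul]
      rw [← Finset.sum_mul]
      calc (g K i J z / G) * (‖f z‖ * ‖rp ε A z‖) = ((g K i J z / G) * ‖f z‖) * ‖rp ε A z‖ := by
            ring
        _ ≤ (2 * (M + δ / 2 + S * ∑ j ∈ Finset.Ico J T, 4 ^ j * ‖P K i j z‖ ^ 2)) *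
            ‖rp ε A z‖ := mul_le_mul_of_nonneg_right (by linarith) h5
        _ = _ := by ring
    refine h1.trans ?_
    rw [integral_add (hint3.const_mul _) (hint4.const_mul _), integral_const_mul,
      integral_const_mul, integral_finsetSum _ hint2, int_rp_haar hpar0 hε A hA hN]
    have h6 : ∀ j ∈ Finset.Ico J T, ∫ z, ((4 : ℝ) ^ j * ‖P K i j z‖ ^ 2) * ‖rp ε A z‖ ∂haar =
        1 / (K : ℝ) * (1 / 2 : ℝ) ^ j := by
      intro j _
      simp_rw [mul_assoc]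
      rw [integral_const_mul, sq_P hpar0 hc1 hε A hA hN hK0 hnear j, term_eq hK0]
    rw [Finset.sum_congr rfl h6, ← Finset.mul_sum]
    have h7 : 1 / (K : ℝ) * ∑ j ∈ Finset.Ico J T, (1 / 2 : ℝ) ^ j ≤ 1 * (2 * (1 / 2) ^ J) := by
      refine mul_le_mul ?_ (geom_le J T) (Finset.sum_nonneg fun _ _ => by positivity) zero_le_one
      rw [div_le_one (by exact_mod_cast hK0)]
      exact_mod_cast hK0
    have h8 := mul_le_mul_of_nonneg_left h7 (by positivity : 0 ≤ 2 * S)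
    linarith
  have := class_fin hpar hq hcq (dens_norm _) hdec b hs A hAs hA key
  linarith

/-- **The union satisfies the Sidon inequalities.** -/
theorem sidonOn_union {K : ℕ} (hK : 4 ≤ K) : SidonOn (E K 0 ∪ E K 1) := by
  classical
  intro q hq
  have hq0 : 0 < q := by linarith
  have hqi : 1 / q < 1 := by rw [div_lt_one hq0]; exact hq
  set c : ℝ := min ((1 - 1 / q) / 2) (1 / 4) with hc
  have hc0 : 0 < c := lt_min (by linarith) (by norm_num)
  have hc1 : 2 * c ≤ 1 / 2 := by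
    have := min_le_right ((1 - 1 / q) / 2) (1 / 4 : ℝ)
    linarith
  have hcq : 2 * c ≤ 1 - 1 / q := by
    have := min_le_left ((1 - 1 / q) / 2) (1 / 4 : ℝ)
    linarith
  set Q : ℝ := 4 + 1 / c with hQ
  have hic : 0 < 1 / c := by positivity
  have hQ4 : 4 ≤ Q := by rw [hQ]; linarith
  have hQc : 1 / (Q - 1) ≤ c := by
    rw [div_le_iff₀ (by linarith)]
    calc (1 : ℝ) = c * (1 / c) := by field_simp
      _ ≤ c * (Q - 1) := by
          gcongr
          rw [hQ]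
          linarith
  obtain ⟨L, hL⟩ := pow_unbounded_of_one_lt Q hq
  have hL0 : (0 : ℝ) ≤ L := Nat.cast_nonneg L
  set κ : ℝ := 1 / (80 * (L + 1)) with hκd
  have hκ0 : 0 < κ := by positivity
  obtain ⟨J, hJ⟩ : ∃ J : ℕ, (1 / 2 : ℝ) ^ J < 1 / (64 * (L + 1)) :=
    exists_pow_lt_of_lt_one (by positivity) (by norm_num)
  obtain ⟨N₀, hN₀, h₀⟩ := class_main (K := K) (i := 0) hK hq hQ4 hc0 hc1 hcq hQc J hκ0
  obtain ⟨N₁, hN₁, h₁⟩ := class_main (K := K) (i := 1) hK hq hQ4 hc0 hc1 hcq hQc J hκ0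
  refine ⟨max N₀ N₁, 16 * (L + 1), fun s b M hs hM0 hM => ?_⟩
  set S := ∑ n ∈ s, ‖b n‖ with hS
  have hS0 : 0 ≤ S := Finset.sum_nonneg fun _ _ => norm_nonneg _
  have hgap : ∀ r : ℕ, ∀ A ⊆ s, (∀ n ∈ A, cls q (L + 1) n = r) →
      ∀ m ∈ A, ∀ n ∈ A, m < n → Q * m ≤ n := by
    intro r A hAs hAr m hm n hn hmn
    exact cls_gap hq hL.le (hs.1 m (hAs hm)).1 (hs.2 m (hAs hm) n (hAs hn) hmn)
      ((hAr m hm).trans (hAr n hn).symm)
  have hX : (4 * (1 / 2) ^ J + 5 * κ) ≤ 1 / (8 * (L + 1)) := by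
    have h1 : 4 * (1 / (64 * ((L : ℝ) + 1))) + 5 * κ = 1 / (8 * (L + 1)) := by
      rw [hκd]
      field_simp
      norm_num
    linarith
  have hclass : ∀ r ∈ Finset.range (L + 1), 1 / 2 * ∑ n ∈ s with cls q (L + 1) n = r, ‖b n‖ ≤
      4 * M + 2 * (1 / (8 * (L + 1))) * S := by
    intro r _
    set A := s.filter (fun n => cls q (L + 1) n = r) with hA
    have hA0 := h₀ s b M (hs.mono (le_max_left _ _) le_rfl) hM0
      (fun z hz => hM z (Or.inl hz)) (A.filter (fun n => ¬ Near 0 n))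
      ((Finset.filter_subset _ _).trans (Finset.filter_subset _ _))
      (hgap r _ ((Finset.filter_subset _ _).trans (Finset.filter_subset _ _))
        (fun n hn => (Finset.mem_filter.1 (Finset.mem_filter.1 hn).1).2))
      (fun n hn => (Finset.mem_filter.1 hn).2)
    have hA1 := h₁ s b M (hs.mono (le_max_right _ _) le_rfl) hM0
      (fun z hz => hM z (Or.inr hz)) (A.filter (fun n => Near 0 n))
      ((Finset.filter_subset _ _).trans (Finset.filter_subset _ _))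
      (hgap r _ ((Finset.filter_subset _ _).trans (Finset.filter_subset _ _))
        (fun n hn => (Finset.mem_filter.1 (Finset.mem_filter.1 hn).1).2))
      (fun n hn h1 => near_unique (Finset.mem_filter.1 hn).2 h1)
    have h2 : ∑ n ∈ A, ‖b n‖ = ∑ n ∈ A with Near 0 n, ‖b n‖ + ∑ n ∈ A with ¬ Near 0 n, ‖b n‖ :=
      (Finset.sum_filter_add_sum_filter_not _ _ _).symm
    have h3 := mul_le_mul_of_nonneg_right hX hS0
    rw [h2]
    linarith
  have hsum : S = ∑ r ∈ Finset.range (L + 1), ∑ n ∈ s with cls q (L + 1) n = r, ‖b n‖ := by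
    rw [hS, Finset.sum_fiberwise_of_maps_to]
    intro n _
    rw [Finset.mem_range]
    exact Nat.mod_lt _ (Nat.succ_pos L)
  have hfin : 1 / 2 * S ≤ (L + 1) * (4 * M + 2 * (1 / (8 * (L + 1))) * S) := by
    conv_lhs => rw [hsum]
    rw [Finset.mul_sum]
    refine (Finset.sum_le_sum hclass).trans ?_
    rw [Finset.sum_const, Finset.card_range, nsmul_eq_mul]
    push_cast
    exact le_rfl
  have h5 : ((L : ℝ) + 1) * (4 * M + 2 * (1 / (8 * (L + 1))) * S) = 4 * (L + 1) * M + S / 4 := by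
    field_simp
    ring
  rw [h5] at hfin
  linarith

/-- **Theorem U.** Two closed sets of almost full length, neither of which satisfies the Sidon
inequalities, whose union does. -/
theorem exists_union (ε : ℝ) (hε : 0 < ε) :
    ∃ E₁ E₂ : Set ℂ, (IsClosed E₁ ∧ E₁ ⊆ sphere 0 1) ∧ (IsClosed E₂ ∧ E₂ ⊆ sphere 0 1) ∧
      volume {t : ℝ | t ∈ Set.Icc 0 (2 * Real.pi) ∧ Complex.exp (t * Complex.I) ∉ E₁}
        < ENNReal.ofReal ε ∧
      volume {t : ℝ | t ∈ Set.Icc 0 (2 * Real.pi) ∧ Complex.exp (t * Complex.I) ∉ E₂}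
        < ENNReal.ofReal ε ∧
      ¬ SidonOn E₁ ∧ ¬ SidonOn E₂ ∧ SidonOn (E₁ ∪ E₂) := by
  obtain ⟨K, hK⟩ := exists_nat_gt (max (4 * Real.pi / ε) 4)
  have hK1 : 4 * Real.pi / ε < K := lt_of_le_of_lt (le_max_left _ _) hK
  have hK2 : (4 : ℝ) < K := lt_of_le_of_lt (le_max_right _ _) hK
  have hK3 : 4 ≤ K := by
    have : 4 < K := by exact_mod_cast hK2
    omega
  exact ⟨E K 0, E K 1, ⟨isClosed_E K 0, E_subset K 0⟩, ⟨isClosed_E K 1, E_subset K 1⟩,
    large_E ε hε hK1 0, large_E ε hε hK1 1, not_sidonOn_E (by omega) 0,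
    not_sidonOn_E (by omega) 1, sidonOn_union hK3⟩

end Forcing.UN
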