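import Pool.Agent.Lib.MP_c80ac4_an.UN.Cls
import Pool.Agent.Lib.MP_c80ac4_an.Meas

/-! # The two sets -/

namespace Forcing.UN

open Complex Metric Set MeasureTheory Filter Topology Forcing.RZ

/-- the frequencies of the test polynomials -/
def fr (i j L : ℕ) : Finset ℕ := (Finset.range L).image fun k => 16 ^ (2 * (k + j) + i)

theorem fr_card (i j L : ℕ) : (fr i j L).card = L := by
  unfold fr
  rw [Finset.card_image_of_injective, Finset.card_range]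
  intro a b hab
  have := Nat.pow_right_injective (by norm_num : 2 ≤ 16) hab
  omega

theorem mem_fr {i j L n : ℕ} : n ∈ fr i j L ↔ ∃ k < L, 16 ^ (2 * (k + j) + i) = n := by
  simp [fr]

/-- the test polynomials -/
noncomputable def P (K i j : ℕ) (z : ℂ) : ℂ :=
  (1 / ((K * 8 ^ j : ℕ) : ℂ)) * ∑ n ∈ fr i j (K * 8 ^ j), z ^ n

theorem continuous_P (K i j : ℕ) : Continuous (P K i j) := by
  unfold P
  fun_prop

/-- the sets -/
def E (K i : ℕ) : Set ℂ := sphere 0 1 ∩ ⋂ j : ℕ, {z | ‖P K i j z‖ ≤ (1 / 2 : ℝ) ^ j}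

theorem isClosed_E (K i : ℕ) : IsClosed (E K i) :=
  isClosed_sphere.inter (isClosed_iInter fun j =>
    isClosed_le (continuous_P K i j).norm continuous_const)

theorem E_subset (K i : ℕ) : E K i ⊆ sphere 0 1 := Set.inter_subset_left

theorem mem_E {K i : ℕ} {z : ℂ} : z ∈ E K i ↔ ‖z‖ = 1 ∧ ∀ j, ‖P K i j z‖ ≤ (1 / 2 : ℝ) ^ j := by
  unfold E
  simp

theorem large_E (ε : ℝ) (hε : 0 < ε) {K : ℕ} (hK : 4 * Real.pi / ε < K) (i : ℕ) :
    volume {t : ℝ | t ∈ Set.Icc 0 (2 * Real.pi) ∧ Complex.exp (t * Complex.I) ∉ E K i}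
        < ENNReal.ofReal ε := by
  have hK0r : (0 : ℝ) < K := lt_trans (by positivity) hK
  have hK0 : 0 < K := by exact_mod_cast hK0r
  have hsub : {t : ℝ | t ∈ Set.Icc 0 (2 * Real.pi) ∧ Complex.exp (t * Complex.I) ∉ E K i} ⊆
      ⋃ j : ℕ, {t : ℝ | t ∈ Set.Icc 0 (2 * Real.pi) ∧ (1 / 2 : ℝ) ^ j <
        ‖(1 / ((K * 8 ^ j : ℕ) : ℂ)) * ∑ n ∈ fr i j (K * 8 ^ j), (Complex.exp (t * I)) ^ n‖} := by
    rintro t ⟨ht, hE⟩
    by_contra hcon
    apply hE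
    refine ⟨by simp [Complex.norm_exp_ofReal_mul_I], ?_⟩
    refine Set.mem_iInter.2 fun j => ?_
    by_contra hj
    apply hcon
    refine Set.mem_iUnion.2 ⟨j, ht, ?_⟩
    exact not_le.1 hj
  have hterm : ∀ j : ℕ, volume {t : ℝ | t ∈ Set.Icc 0 (2 * Real.pi) ∧ (1 / 2 : ℝ) ^ j <
        ‖(1 / ((K * 8 ^ j : ℕ) : ℂ)) * ∑ n ∈ fr i j (K * 8 ^ j), (Complex.exp (t * I)) ^ n‖} ≤
      ENNReal.ofReal ((2 * Real.pi / K) * (1 / 2) ^ j) := by
    intro j
    refine (meas_cheb _ (K * 8 ^ j) (fr_card _ _ _) (by positivity) _ (by positivity)).trans ?_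
    apply ENNReal.ofReal_le_ofReal
    apply le_of_eq
    have h8 : (8 : ℝ) ^ j = 2 ^ j * (2 ^ j * 2 ^ j) := by
      rw [← mul_pow, ← mul_pow]
      norm_num
    push_cast
    rw [h8]
    have h2 : (2 : ℝ) ^ j ≠ 0 := by positivity
    have h12 : (1 / 2 : ℝ) ^ j = 1 / 2 ^ j := by rw [div_pow, one_pow]
    rw [h12]
    field_simp
  have hsum : Summable fun j : ℕ => (2 * Real.pi / K) * (1 / 2 : ℝ) ^ j :=
    (summable_geometric_of_lt_one (by norm_num) (by norm_num)).mul_left _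
  calc volume {t : ℝ | t ∈ Set.Icc 0 (2 * Real.pi) ∧ Complex.exp (t * Complex.I) ∉ E K i}
      ≤ volume (⋃ j : ℕ, {t : ℝ | t ∈ Set.Icc 0 (2 * Real.pi) ∧ (1 / 2 : ℝ) ^ j <
        ‖(1 / ((K * 8 ^ j : ℕ) : ℂ)) * ∑ n ∈ fr i j (K * 8 ^ j), (Complex.exp (t * I)) ^ n‖}) :=
        measure_mono hsub
    _ ≤ ∑' j : ℕ, volume {t : ℝ | t ∈ Set.Icc 0 (2 * Real.pi) ∧ (1 / 2 : ℝ) ^ j <
        ‖(1 / ((K * 8 ^ j : ℕ) : ℂ)) * ∑ n ∈ fr i j (K * 8 ^ j), (Complex.exp (t * I)) ^ n‖} :=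
        measure_iUnion_le _
    _ ≤ ∑' j : ℕ, ENNReal.ofReal ((2 * Real.pi / K) * (1 / 2) ^ j) :=
        ENNReal.tsum_le_tsum hterm
    _ = ENNReal.ofReal (∑' j : ℕ, (2 * Real.pi / K) * (1 / 2 : ℝ) ^ j) :=
        (ENNReal.ofReal_tsum_of_nonneg (fun j => by positivity) hsum).symm
    _ = ENNReal.ofReal (4 * Real.pi / K) := by
        rw [tsum_mul_left, tsum_geometric_two]
        congr 1
        ring
    _ < ENNReal.ofReal ε := by
        apply (ENNReal.ofReal_lt_ofReal_iff hε).2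
        rw [div_lt_iff₀ hK0r]
        rw [div_lt_iff₀ hε] at hK
        linarith

theorem not_sidonOn_E {K : ℕ} (hK0 : 0 < K) (i : ℕ) : ¬ SidonOn (E K i) := by
  intro hS
  obtain ⟨N, C, hNC⟩ := hS 2 (by norm_num)
  have hbound : ∀ j : ℕ, N ≤ 2 ^ j → (1 : ℝ) ≤ C * (1 / 2) ^ j := by
    intro j hj
    have hlac : LacSet 2 N (fr i j (K * 8 ^ j) : Set ℕ) := by
      constructor
      · intro m hm
        obtain ⟨k, _, rfl⟩ := mem_fr.1 (Finset.mem_coe.1 hm)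
        refine ⟨by positivity, hj.trans ?_⟩
        calc 2 ^ j ≤ 16 ^ j := Nat.pow_le_pow_left (by norm_num) j
          _ ≤ 16 ^ (2 * (k + j) + i) := Nat.pow_le_pow_right (by norm_num) (by omega)
      · intro m hm n hn hmn
        obtain ⟨k, _, rfl⟩ := mem_fr.1 (Finset.mem_coe.1 hm)
        obtain ⟨k', _, rfl⟩ := mem_fr.1 (Finset.mem_coe.1 hn)
        have hlt := (Nat.pow_lt_pow_iff_right (by norm_num)).1 hmn
        have h1 : (2 : ℕ) * 16 ^ (2 * (k + j) + i) ≤ 16 ^ (2 * (k' + j) + i) := by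
          calc (2 : ℕ) * 16 ^ (2 * (k + j) + i) ≤ 16 * 16 ^ (2 * (k + j) + i) := by gcongr; norm_num
            _ = 16 ^ (2 * (k + j) + i + 1) := (pow_succ' _ _).symm
            _ ≤ 16 ^ (2 * (k' + j) + i) := Nat.pow_le_pow_right (by norm_num) hlt
        exact_mod_cast h1
    have h1 := hNC (fr i j (K * 8 ^ j)) (fun _ => 1 / ((K * 8 ^ j : ℕ) : ℂ)) ((1 / 2) ^ j) hlac
      (by positivity) (fun z hz => by
        have hz3 := (mem_E.1 hz).2 j
        unfold P at hz3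
        rwa [Finset.mul_sum] at hz3)
    have h2 : ∑ n ∈ fr i j (K * 8 ^ j), ‖(1 / ((K * 8 ^ j : ℕ) : ℂ))‖ = 1 := by
      rw [Finset.sum_const, fr_card, nsmul_eq_mul, norm_div, norm_one, Complex.norm_natCast]
      have : ((K * 8 ^ j : ℕ) : ℝ) ≠ 0 := by positivity
      field_simp
    rw [h2] at h1
    exact h1
  have hlim : Tendsto (fun j : ℕ => C * (1 / 2 : ℝ) ^ j) atTop (𝓝 0) := by
    have := (tendsto_pow_atTop_nhds_zero_of_lt_one (r := (1 / 2 : ℝ)) (by norm_num)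
      (by norm_num)).const_mul C
    simpa using this
  have hev : ∀ᶠ j : ℕ in atTop, C * (1 / 2 : ℝ) ^ j < 1 := hlim.eventually (gt_mem_nhds one_pos)
  obtain ⟨j, hj, hjN⟩ := (hev.and (eventually_ge_atTop N)).exists
  have := hbound j (hjN.trans (Nat.lt_two_pow_self).le)
  linarith

/-- `n` is close to a frequency of the first or second kind -/
def Near (i n : ℕ) : Prop := ∃ k : ℕ, 16 ^ (2 * k + i) ≤ 2 * n ∧ n ≤ 2 * 16 ^ (2 * k + i)

theorem near_unique {n : ℕ} (h0 : Near 0 n) (h1 : Near 1 n) : False := by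
  obtain ⟨k, hk1, hk2⟩ := h0
  obtain ⟨l, hl1, hl2⟩ := h1
  rcases lt_or_ge (2 * k + 0) (2 * l + 1) with h | h
  · have h3 : 16 * 16 ^ (2 * k + 0) ≤ 16 ^ (2 * l + 1) := by
      rw [← pow_succ']
      exact Nat.pow_le_pow_right (by norm_num) h
    have h4 : 0 < 16 ^ (2 * k + 0) := by positivity
    omega
  · have h3 : 16 * 16 ^ (2 * l + 1) ≤ 16 ^ (2 * k + 0) := by
      rw [← pow_succ']
      exact Nat.pow_le_pow_right (by norm_num) (by omega)
    have h4 : 0 < 16 ^ (2 * l + 1) := by positivity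
    omega

theorem far_of_not_near {i n a b : ℕ} (hn : ¬ Near i n) {p r : ℕ} (ha : 16 ^ (2 * p + i) = a)
    (hb : 16 ^ (2 * r + i) = b) (hab : b < a) : (n : ℝ) / 2 ≤ |((a - b : ℕ) : ℝ) - n| := by
  have h1 : 2 * n < a ∨ 2 * a < n := by
    by_contra hcon
    push Not at hcon
    exact hn ⟨p, by omega, by omega⟩
  have h2 : 16 * b ≤ a := by
    have h3 : 2 * r + i < 2 * p + i := by
      rw [← ha, ← hb] at hab
      exact (Nat.pow_lt_pow_iff_right (by norm_num)).1 hab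
    rw [← ha, ← hb, ← pow_succ']
    exact Nat.pow_le_pow_right (by norm_num) h3
  have h3 : (16 : ℝ) * b ≤ a := by exact_mod_cast h2
  rw [Nat.cast_sub hab.le]
  have hb0 : (0 : ℝ) ≤ b := Nat.cast_nonneg b
  rcases h1 with h1 | h1
  · have h4 : (2 : ℝ) * n < a := by exact_mod_cast h1
    refine le_trans ?_ (le_abs_self _)
    linarith
  · have h4 : (2 : ℝ) * a < n := by exact_mod_cast h1
    refine le_trans ?_ (neg_le_abs _)
    linarith

/-- **Mean square of the test polynomials against Riesz products without near frequencies.** -/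
theorem sq_P {Q c : ℝ} (h : Par Q 1 0 c 0 1) (hc : 2 * c ≤ 1 / 2) {ε : ℕ → ℂ}
    (hε : ∀ n, ‖ε n‖ ≤ 1) (A : Finset ℕ) (hA : ∀ m ∈ A, ∀ n ∈ A, m < n → Q * m ≤ n)
    (hN : ∀ m ∈ A, 1 ≤ m) {K i : ℕ} (hK : 0 < K) (hnear : ∀ n ∈ A, ¬ Near i n) (j : ℕ) :
    ∫ z, ‖P K i j z‖ ^ 2 * ‖rp ε A z‖ ∂haar = 1 / (K * 8 ^ j) := by
  have h1 := sq_haar h hε A hA hN (fr i j (K * 8 ^ j)) (fun a ha b hb hab n hn => by
    obtain ⟨k, _, hk⟩ := mem_fr.1 ha
    obtain ⟨l, _, hl⟩ := mem_fr.1 hb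
    refine le_trans ?_ (far_of_not_near (hnear n hn) hk hl hab)
    have : (0 : ℝ) ≤ n := Nat.cast_nonneg n
    nlinarith)
  rw [fr_card] at h1
  have h2 : ∀ z, ‖P K i j z‖ ^ 2 * ‖rp ε A z‖ = (1 / ((K * 8 ^ j : ℕ) : ℝ)) ^ 2 *
      (‖∑ n ∈ fr i j (K * 8 ^ j), z ^ n‖ ^ 2 * ‖rp ε A z‖) := by
    intro z
    unfold P
    rw [norm_mul, norm_div, norm_one, Complex.norm_natCast]
    ring
  simp_rw [h2]
  rw [integral_const_mul, h1]
  have : (0 : ℝ) < K := by exact_mod_cast hK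
  push_cast
  field_simp

end Forcing.UN
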